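import Pool.Agent.Helper96.BJ7.Defs2

/-! BJ7 F1: EP: membership, conjugation and the entry formula for diagonal θ -/

namespace Pool.Agent.Helper96.BJ7

open Matrix Finset Pool.Agent.Helper41.BJ

/-- entries of an ordered product of matrices -/
theorem prod_entry {n : ℕ} {R : Type*} [CommRing R] : ∀ (N : ℕ) (A : Fin N → MN n R) (i j : Fin n),
    (List.ofFn A).prod i j = ∑ f : Fin (N + 1) → Fin n,
      if f 0 = i ∧ f (Fin.last N) = j then ∏ k : Fin N, A k (f k.castSucc) (f k.succ) else 0 := by
  intro N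
  induction N with
  | zero =>
    intro A i j
    rw [List.ofFn_zero, List.prod_nil, Matrix.one_apply]
    rw [← Equiv.sum_comp (Equiv.funUnique (Fin 1) (Fin n)).symm]
    simp only [Equiv.funUnique_symm_apply, uniqueElim_const, Finset.univ_eq_empty,
      Finset.prod_empty]
    have : ∀ x : Fin n, (if x = i ∧ x = j then (1 : R) else 0) =
        if x = i then (if i = j then 1 else 0) else 0 := by
      intro x
      by_cases h : x = i
      · subst h; simp
      · simp [h]
    rw [Finset.sum_congr rfl fun x _ => this x]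
    simp
  | succ N ih =>
    intro A i j
    rw [List.ofFn_succ, List.prod_cons, Matrix.mul_apply]
    rw [← Equiv.sum_comp (Fin.consEquiv fun _ => Fin n), Fintype.sum_prod_type]
    have h1 : ∀ p : Fin n, A 0 i p * (List.ofFn fun k : Fin N => A k.succ).prod p j =
        ∑ g : Fin (N + 1) → Fin n, if g 0 = p ∧ g (Fin.last N) = j then
          A 0 i (g 0) * ∏ k : Fin N, A k.succ (g k.castSucc) (g k.succ) else 0 := by
      intro p
      rw [ih, Finset.mul_sum]
      refine Finset.sum_congr rfl fun g _ => ?_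
      split_ifs with h
      · rw [h.1]
      · rw [mul_zero]
    rw [Finset.sum_congr rfl fun p _ => h1 p, Finset.sum_comm]
    have h2 : ∀ g : Fin (N + 1) → Fin n, (∑ p : Fin n, if g 0 = p ∧ g (Fin.last N) = j then
          A 0 i (g 0) * ∏ k : Fin N, A k.succ (g k.castSucc) (g k.succ) else 0) =
        if g (Fin.last N) = j then
          A 0 i (g 0) * ∏ k : Fin N, A k.succ (g k.castSucc) (g k.succ) else 0 := by
      intro g
      rw [Finset.sum_eq_single (g 0)]
      · simp
      · intro b _ hb
        rw [if_neg]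
        intro h
        exact hb h.1.symm
      · intro h; exact absurd (Finset.mem_univ _) h
    rw [Finset.sum_congr rfl fun g _ => h2 g, Finset.sum_eq_single i]
    · refine Finset.sum_congr rfl fun g _ => ?_
      have e0 : (Fin.consEquiv fun _ => Fin n) (i, g) = (Fin.cons i g : Fin (N + 2) → Fin n) := rfl
      rw [e0, Fin.cons_zero]
      have e1 : (Fin.cons i g : Fin (N + 2) → Fin n) (Fin.last (N + 1)) = g (Fin.last N) := by
        rw [← Fin.succ_last, Fin.cons_succ]
      rw [e1]
      simp only [true_and]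
      congr 1
      rw [Fin.prod_univ_succ]
      congr 1
    · intro b _ hb
      refine Finset.sum_eq_zero fun g _ => ?_
      have e0 : (Fin.consEquiv fun _ => Fin n) (b, g) = (Fin.cons b g : Fin (N + 2) → Fin n) := rfl
      rw [e0, Fin.cons_zero, if_neg]
      intro h
      exact hb h.1
    · intro h; exact absurd (Finset.mem_univ _) h

variable {m : ℕ}

/-- conjugation as a ring homomorphism -/
def cj {n : ℕ} {Ω : Type*} [CommRing Ω] (S S' : MN n Ω) (h : S * S' = 1) : MN n Ω →+* MN n Ω where
  toFun x := S' * x * S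
  map_one' := by rw [mul_one, mul_eq_one_comm.mp h]
  map_mul' x y := by
    calc S' * (x * y) * S = S' * x * 1 * y * S := by simp only [mul_one, mul_assoc]
      _ = S' * x * (S * S') * y * S := by rw [h]
      _ = S' * x * S * (S' * y * S) := by simp only [mul_assoc]
  map_zero' := by simp
  map_add' x y := by rw [mul_add, add_mul]

theorem F1a {K : Type*} {Ω : Type*} [Field K] [Field Ω] [Algebra K Ω]
    (G : Subalgebra K (MN (m + 1) Ω)) (P : MvPolynomial (Fin (m + 2)) ℤ) (θ : MN (m + 1) Ω)
    (hθ : θ ∈ G) (y : Fin (m + 1) → MN (m + 1) Ω) (hy : ∀ k, y k ∈ G) :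
    EP P θ y ∈ G := by
  unfold EP
  refine Subalgebra.sum_mem G fun e _ => ?_
  apply zsmul_mem
  unfold wrd
  refine G.mul_mem (list_prod_mem ?_) (G.pow_mem hθ _)
  intro x hx
  rw [List.mem_ofFn] at hx
  obtain ⟨k, rfl⟩ := hx
  exact G.mul_mem (G.pow_mem hθ _) (hy k)

theorem F1b {Ω : Type*} [CommRing Ω] (P : MvPolynomial (Fin (m + 2)) ℤ) (θ : MN (m + 1) Ω)
    (y : Fin (m + 1) → MN (m + 1) Ω) (S S' : MN (m + 1) Ω) (h : S * S' = 1) :
    S' * EP P θ y * S = EP P (S' * θ * S) (fun k => S' * y k * S) := by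
  change cj S S' h (EP P θ y) = EP P (cj S S' h θ) (fun k => cj S S' h (y k))
  unfold EP
  rw [map_sum]
  refine Finset.sum_congr rfl fun e _ => ?_
  rw [map_zsmul]
  congr 1
  unfold wrd
  rw [map_mul, map_list_prod, List.map_ofFn, map_pow]
  congr 2
  congr 1
  funext k
  simp only [Function.comp_apply, map_mul, map_pow]

theorem F1c {Ω : Type*} [CommRing Ω] (P : MvPolynomial (Fin (m + 2)) ℤ) (a : Fin (m + 1) → Ω)
    (y : Fin (m + 1) → MN (m + 1) Ω) (i j : Fin (m + 1)) :
    EP P (Matrix.diagonal a) y i j = ∑ f : Fin (m + 2) → Fin (m + 1),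
      if f 0 = i ∧ f (Fin.last (m + 1)) = j then
        MvPolynomial.aeval (fun k => a (f k)) P * ∏ k : Fin (m + 1), y k (f k.castSucc) (f k.succ)
      else 0 := by
  have key : ∀ e : Fin (m + 2) →₀ ℕ, wrd (Matrix.diagonal a) y e i j =
      ∑ f : Fin (m + 2) → Fin (m + 1), if f 0 = i ∧ f (Fin.last (m + 1)) = j then
        (∏ k : Fin (m + 2), a (f k) ^ e k) * ∏ k : Fin (m + 1), y k (f k.castSucc) (f k.succ)
      else 0 := by
    intro e
    unfold wrd
    rw [Matrix.diagonal_pow, Matrix.mul_diagonal, prod_entry, Finset.sum_mul]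
    refine Finset.sum_congr rfl fun f _ => ?_
    split_ifs with h
    · rw [Fin.prod_univ_castSucc (n := m + 1) (f := fun k => a (f k) ^ e k), h.2]
      have h1 : ∀ k : Fin (m + 1), ((fun k : Fin (m + 1) => Matrix.diagonal a ^ e k.castSucc * y k) k)
          (f k.castSucc) (f k.succ) = a (f k.castSucc) ^ e k.castSucc * y k (f k.castSucc) (f k.succ) := by
        intro k
        show (Matrix.diagonal a ^ e k.castSucc * y k) (f k.castSucc) (f k.succ) = _
        rw [Matrix.diagonal_pow, Matrix.diagonal_mul]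
        rfl
      rw [Finset.prod_congr rfl fun k _ => h1 k, Finset.prod_mul_distrib, Pi.pow_apply]
      ring
    · rw [zero_mul]
  have hev : ∀ v : Fin (m + 2) → Ω, MvPolynomial.aeval v P =
      ∑ e ∈ P.support, ((P.coeff e : ℤ) : Ω) * ∏ k : Fin (m + 2), v k ^ e k := by
    intro v
    rw [MvPolynomial.aeval_def, MvPolynomial.eval₂_eq']
    refine Finset.sum_congr rfl fun e _ => ?_
    simp
  unfold EP
  rw [Matrix.sum_apply]
  have h1 : ∀ e ∈ P.support, (P.coeff e • wrd (Matrix.diagonal a) y e) i j =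
      ∑ f : Fin (m + 2) → Fin (m + 1), if f 0 = i ∧ f (Fin.last (m + 1)) = j then
        (((P.coeff e : ℤ) : Ω) * ∏ k : Fin (m + 2), a (f k) ^ e k) *
          ∏ k : Fin (m + 1), y k (f k.castSucc) (f k.succ)
      else 0 := by
    intro e _
    rw [Matrix.smul_apply, key, zsmul_eq_mul, Finset.mul_sum]
    refine Finset.sum_congr rfl fun f _ => ?_
    split_ifs with h
    · ring
    · rw [mul_zero]
  rw [Finset.sum_congr rfl h1, Finset.sum_comm]
  refine Finset.sum_congr rfl fun f _ => ?_
  by_cases h : f 0 = i ∧ f (Fin.last (m + 1)) = j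
  · simp only [if_pos h]
    rw [hev, Finset.sum_mul]
  · simp only [if_neg h, Finset.sum_const_zero]

end Pool.Agent.Helper96.BJ7
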