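import Pool.Agent.Helper96.BJ7.F1

/-! BJ7 F2: Formanek's central polynomial in general degree -/

namespace Pool.Agent.Helper96.BJ7

open Matrix Finset Pool.Agent.Helper41.BJ

variable {m : ℕ} {Ω : Type*} [CommRing Ω]

/-- the discriminant is invariant under permutations -/
lemma F2_dsc_perm {n : ℕ} (a : Fin n → Ω) (σ : Equiv.Perm (Fin n)) : dsc (a ∘ σ) = dsc a := by
  unfold dsc
  have h : Matrix.vandermonde (a ∘ σ) = (Matrix.vandermonde a).submatrix σ id := by
    ext i j
    simp [Matrix.vandermonde_apply]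
  rw [h, Matrix.det_permute, mul_pow]
  have : ((Equiv.Perm.sign σ : ℤ) : Ω) ^ 2 = 1 := by
    rcases Int.units_eq_one_or (Equiv.Perm.sign σ) with h | h <;> simp [h]
  rw [this, one_mul]

lemma F2_vand (x : Fin (m + 1) → Ω) : (Matrix.vandermonde x).det =
    (∏ k : Fin m, (x k.succ - x 0)) * (Matrix.vandermonde fun k : Fin m => x k.succ).det := by
  rw [Matrix.det_vandermonde, Matrix.det_vandermonde, Fin.prod_univ_succ]
  congr 1
  · rw [Fin.prod_Ioi_zero]
  · refine Finset.prod_congr rfl fun i _ => ?_
    rw [Fin.prod_Ioi_succ]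

lemma F2_vand' (x : Fin (m + 1) → Ω) : (∏ k : Fin m, (x 0 - x k.succ)) *
    (Matrix.vandermonde fun k : Fin m => x k.succ).det = (-1) ^ m * (Matrix.vandermonde x).det := by
  rw [F2_vand x, ← mul_assoc]
  congr 1
  have h : ∀ k : Fin m, x 0 - x k.succ = (-1) * (x k.succ - x 0) := fun k => by ring
  rw [Finset.prod_congr rfl fun k _ => h k, Finset.prod_mul_distrib, Finset.prod_const,
    Finset.card_univ, Fintype.card_fin]

lemma F2_fmk (v : Fin (m + 2) → Ω) : MvPolynomial.aeval v (fmk m) =
    (∏ k : Fin m, (v 0 - v k.succ.castSucc)) * (∏ k : Fin m, (v (Fin.last (m + 1)) - v k.succ.castSucc)) *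
    (Matrix.vandermonde fun k : Fin m => v k.succ.castSucc).det ^ 2 := by
  unfold fmk
  rw [map_mul, map_mul, map_prod, map_prod, map_pow]
  congr 1
  · simp only [map_sub, MvPolynomial.aeval_X]
  · congr 1
    have h := AlgHom.map_det (MvPolynomial.aeval v : MvPolynomial (Fin (m + 2)) ℤ →ₐ[ℤ] Ω)
      (Matrix.vandermonde fun k : Fin m =>
        (MvPolynomial.X k.succ.castSucc : MvPolynomial (Fin (m + 2)) ℤ))
    rw [h]
    congr 1
    ext i j
    simp [Matrix.vandermonde_apply, Matrix.map_apply]

/-- value of Formanek's polynomial at entries -/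
lemma F2_val (a : Fin (m + 1) → Ω) (f : Fin (m + 2) → Fin (m + 1)) :
    MvPolynomial.aeval (fun k => a (f k)) (fmk m) =
      if f (Fin.last (m + 1)) = f 0 ∧ Function.Injective (fun k : Fin (m + 1) => f k.castSucc)
        then dsc a else 0 := by
  rw [F2_fmk]
  set g : Fin (m + 1) → Fin (m + 1) := fun k => f k.castSucc with hg
  have h0 : f 0 = g 0 := rfl
  have hs : ∀ k : Fin m, f k.succ.castSucc = g k.succ := fun k => rfl
  simp only [h0, hs]
  have hv := F2_vand' (fun k => a (g k))
  by_cases hinj : Function.Injective g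
  · by_cases hl : f (Fin.last (m + 1)) = g 0
    · rw [if_pos ⟨hl, hinj⟩, hl]
      have hb : Function.Bijective g := Finite.injective_iff_bijective.mp hinj
      rw [← F2_dsc_perm a (Equiv.ofBijective _ hb)]
      have e1 : (∏ k : Fin m, (a (g 0) - a (g k.succ))) * (∏ k : Fin m, (a (g 0) - a (g k.succ))) *
          (Matrix.vandermonde fun k : Fin m => a (g k.succ)).det ^ 2 =
          ((∏ k : Fin m, (a (g 0) - a (g k.succ))) *
            (Matrix.vandermonde fun k : Fin m => a (g k.succ)).det) ^ 2 := by ring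
      rw [e1, hv]
      unfold dsc
      have e2 : (a ∘ (Equiv.ofBijective g hb)) = fun k => a (g k) := rfl
      rw [e2, mul_pow, ← pow_mul, mul_comm m 2, pow_mul]
      simp
    · rw [if_neg (fun h => hl h.1)]
      have hsur : Function.Surjective g := Finite.injective_iff_surjective.mp hinj
      obtain ⟨k, hk⟩ := hsur (f (Fin.last (m + 1)))
      rcases Fin.eq_zero_or_eq_succ k with h1 | ⟨k', rfl⟩
      · exact absurd (by rw [← hk, h1]) hl
      · have h2 : (∏ k : Fin m, (a (f (Fin.last (m + 1))) - a (g k.succ))) = 0 := by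
          refine Finset.prod_eq_zero (Finset.mem_univ k') ?_
          rw [hk, sub_self]
        rw [h2]; ring
  · rw [if_neg (fun h => hinj h.2)]
    have hz : (Matrix.vandermonde fun k => a (g k)).det = 0 := by
      rw [Function.not_injective_iff] at hinj
      obtain ⟨i, j, hij, hne⟩ := hinj
      refine Matrix.det_zero_of_row_eq hne ?_
      funext l
      simp only [Matrix.row_apply, Matrix.vandermonde_apply, hij]
    rw [hz, mul_zero] at hv
    have e1 : (∏ k : Fin m, (a (g 0) - a (g k.succ))) *
        (∏ k : Fin m, (a (f (Fin.last (m + 1))) - a (g k.succ))) *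
          (Matrix.vandermonde fun k : Fin m => a (g k.succ)).det ^ 2 =
        ((∏ k : Fin m, (a (g 0) - a (g k.succ))) *
          (Matrix.vandermonde fun k : Fin m => a (g k.succ)).det) *
        ((∏ k : Fin m, (a (f (Fin.last (m + 1))) - a (g k.succ))) *
          (Matrix.vandermonde fun k : Fin m => a (g k.succ)).det) := by ring
    rw [e1, hv, zero_mul]

lemma F2_sum_inj {n : ℕ} (h : (Fin n → Fin n) → Ω) :
    ∑ f : Fin n → Fin n, (if Function.Injective f then h f else 0) =
      ∑ σ : Equiv.Perm (Fin n), h σ := by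
  classical
  rw [← Finset.sum_filter]
  refine Finset.sum_bij (fun f hf => Equiv.ofBijective f
    (Finite.injective_iff_bijective.mp (Finset.mem_filter.mp hf).2)) ?_ ?_ ?_ ?_
  · intro f hf
    exact Finset.mem_univ _
  · intro f hf g hg hfg
    have := congrArg (fun σ : Equiv.Perm (Fin n) => (σ : Fin n → Fin n)) hfg
    simpa using this
  · intro σ _
    refine ⟨σ, Finset.mem_filter.mpr ⟨Finset.mem_univ _, σ.injective⟩, ?_⟩
    ext l
    simp
  · intro f hf
    simp

lemma F2_snoc {α : Type*} (g : Fin (m + 1) → α) (l : Fin (m + 1)) :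
    (Fin.snoc g (g 0) : Fin (m + 2) → α) l.succ = g (l + 1) := by
  rcases Fin.eq_castSucc_or_eq_last l with ⟨l', rfl⟩ | rfl
  · have h1 : (l'.castSucc : Fin (m + 1)).succ = (l'.succ : Fin (m + 1)).castSucc := by
      rw [Fin.succ_castSucc]
    rw [h1, Fin.snoc_castSucc]
    congr 1
    ext
    rw [Fin.val_succ, Fin.val_add_one_of_lt (Fin.castSucc_lt_last l')]
    rfl
  · rw [Fin.succ_last, Fin.snoc_last, Fin.last_add_one]

lemma F2_key (a : Fin (m + 1) → Ω) (y : Fin (m + 1) → MN (m + 1) Ω) (i j k : Fin (m + 1)) :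
    (∑ f : Fin (m + 2) → Fin (m + 1),
      if f 0 = i ∧ f (Fin.last (m + 1)) = j then
        (MvPolynomial.aeval (fun k => a (f k)) (fmk m) : Ω) *
          ∏ l : Fin (m + 1), y (l + k) (f l.castSucc) (f l.succ)
      else 0) =
      if i = j then ∑ σ : Equiv.Perm (Fin (m + 1)),
        (if σ k = i then dsc a * ∏ l, y l (σ l) (σ (l + 1)) else 0) else 0 := by
  classical
  rw [← Equiv.sum_comp (Fin.snocEquiv fun _ => Fin (m + 1)), Fintype.sum_prod_type,
    Finset.sum_comm]
  have h1 : ∀ g : Fin (m + 1) → Fin (m + 1), (∑ x : Fin (m + 1),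
      if ((Fin.snocEquiv fun _ => Fin (m + 1)) (x, g)) 0 = i ∧
        ((Fin.snocEquiv fun _ => Fin (m + 1)) (x, g)) (Fin.last (m + 1)) = j then
        (MvPolynomial.aeval (fun k => a (((Fin.snocEquiv fun _ => Fin (m + 1)) (x, g)) k))
          (fmk m) : Ω) *
          ∏ l : Fin (m + 1), y (l + k) (((Fin.snocEquiv fun _ => Fin (m + 1)) (x, g)) l.castSucc)
            (((Fin.snocEquiv fun _ => Fin (m + 1)) (x, g)) l.succ)
      else 0) = if Function.Injective g then
        (if g 0 = i ∧ i = j then dsc a * ∏ l : Fin (m + 1), y (l + k) (g l) (g (l + 1)) else 0)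
        else 0 := by
    intro g
    have e0 : ∀ x, (Fin.snocEquiv fun _ => Fin (m + 1)) (x, g) =
      (Fin.snoc g x : Fin (m + 2) → Fin (m + 1)) := fun x => rfl
    have ez : ∀ x, (Fin.snoc g x : Fin (m + 2) → Fin (m + 1)) 0 = g 0 := by
      intro x
      rw [← Fin.castSucc_zero, Fin.snoc_castSucc]
    have el : ∀ x, (Fin.snoc g x : Fin (m + 2) → Fin (m + 1)) (Fin.last (m + 1)) = x := by
      intro x
      rw [Fin.snoc_last]
    have ec : ∀ x, (fun k : Fin (m + 1) => (Fin.snoc g x : Fin (m + 2) → Fin (m + 1)) k.castSucc) =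
        g := by
      intro x
      funext k
      rw [Fin.snoc_castSucc]
    simp only [e0, F2_val, ez, el, ec]
    rw [Finset.sum_eq_single (g 0)]
    · by_cases hinj : Function.Injective g
      · simp only [hinj, and_true, if_true]
        by_cases hi : g 0 = i
        · by_cases hj : g 0 = j
          · rw [if_pos ⟨hi, hj⟩, if_pos ⟨hi, by rw [← hi, hj]⟩]
            congr 1
            refine Finset.prod_congr rfl fun l _ => ?_
            rw [F2_snoc, Fin.snoc_castSucc]
          · rw [if_neg (fun h => hj h.2), if_neg (fun h => hj (by rw [h.1, h.2]))]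
        · rw [if_neg (fun h => hi h.1), if_neg (fun h => hi h.1)]
      · simp only [hinj, and_false, if_false, zero_mul, ite_self]
    · intro x _ hx
      rw [if_neg (fun h : x = g 0 ∧ Function.Injective g => hx h.1), zero_mul, ite_self]
    · intro h; exact absurd (Finset.mem_univ _) h
  rw [Finset.sum_congr rfl fun g _ => h1 g, F2_sum_inj]
  by_cases hij : i = j
  · subst hij
    simp only [and_true, if_true]
    rw [← Equiv.sum_comp (Equiv.mulRight (Equiv.addRight k))]
    refine Finset.sum_congr rfl fun σ _ => ?_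
    have h2 : ∀ l : Fin (m + 1), (Equiv.mulRight (Equiv.addRight k) σ) l = σ (l + k) := by
      intro l
      simp
    simp only [h2, zero_add]
    congr 2
    rw [← Equiv.prod_comp (Equiv.addRight k) (fun l => y l (σ l) (σ (l + 1)))]
    refine Finset.prod_congr rfl fun l _ => ?_
    rw [Equiv.coe_addRight, add_right_comm]
  · rw [if_neg hij]
    refine Finset.sum_eq_zero fun σ _ => ?_
    rw [if_neg (fun h => hij h.2)]

theorem F2 (a : Fin (m + 1) → Ω) (y : Fin (m + 1) → MN (m + 1) Ω) :
    ∑ k : Fin (m + 1), EP (fmk m) (Matrix.diagonal a) (fun i => y (i + k)) =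
      (dsc a * tau y) • (1 : MN (m + 1) Ω) := by
  classical
  ext i j
  rw [Matrix.sum_apply]
  simp only [F1c]
  rw [Finset.sum_congr rfl (fun k _ => F2_key a y i j k)]
  rw [Matrix.smul_apply, Matrix.one_apply]
  by_cases hij : i = j
  · subst hij
    simp only [if_true, smul_eq_mul, mul_one]
    rw [Finset.sum_comm]
    unfold tau
    rw [Finset.mul_sum]
    refine Finset.sum_congr rfl fun σ _ => ?_
    have : ∀ k : Fin (m + 1), (σ k = i) = (k = σ.symm i) := by
      intro k
      exact propext (Equiv.eq_symm_apply σ).symm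
    simp only [this]
    rw [Finset.sum_ite_eq']
    simp
  · simp [hij]

end Pool.Agent.Helper96.BJ7
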