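import Pool.Agent.Helper96.BJ7.Defs2

/-! BJ7 F3: separation: x i j ≠ 0, u = E_(0,i), v = E_(j,1), the others E_(k,k+1): tau = x i j
(only σ = id contributes) -/

namespace Pool.Agent.Helper96.BJ7

open Matrix Finset Pool.Agent.Helper41.BJ

variable {m : ℕ} {Ω : Type*} [Field Ω]

theorem F3 (x : MN (m + 1) Ω) (hx : x ≠ 0) :
    ∃ (u v : MN (m + 1) Ω) (y : Fin (m + 1) → MN (m + 1) Ω),
      tau (fun k => if k = 0 then u * x * v else y k) ≠ 0 := by
  have h : ∃ i j, x i j ≠ 0 := by
    by_contra hcon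
    push Not at hcon
    exact hx (Matrix.ext hcon)
  obtain ⟨i, j, hij⟩ := h
  refine ⟨Matrix.single 0 i 1, Matrix.single j (0 + 1) 1, fun k => Matrix.single k (k + 1) 1, ?_⟩
  have h1 : Matrix.single (0 : Fin (m + 1)) i (1 : Ω) * x *
      Matrix.single j (0 + 1 : Fin (m + 1)) (1 : Ω) = Matrix.single 0 (0 + 1) (x i j) := by
    rw [Matrix.single_mul_mul_single, one_mul, mul_one]
  have h2 : tau (fun k : Fin (m + 1) => if k = 0 then Matrix.single (0 : Fin (m + 1)) i (1 : Ω) * x *
      Matrix.single j (0 + 1 : Fin (m + 1)) (1 : Ω) else Matrix.single k (k + 1) (1 : Ω)) = x i j := by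
    unfold tau
    rw [h1, Finset.sum_eq_single (1 : Equiv.Perm (Fin (m + 1)))]
    · rw [Fin.prod_univ_succ]
      have h3 : ∀ k : Fin m, (if k.succ = (0 : Fin (m + 1)) then
          Matrix.single (0 : Fin (m + 1)) (0 + 1 : Fin (m + 1)) (x i j)
          else Matrix.single k.succ (k.succ + 1) (1 : Ω)) ((1 : Equiv.Perm (Fin (m + 1))) k.succ)
          ((1 : Equiv.Perm (Fin (m + 1))) (k.succ + 1)) = 1 := by
        intro k
        rw [if_neg (Fin.succ_ne_zero k), Equiv.Perm.one_apply, Equiv.Perm.one_apply,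
          Matrix.single_apply_same]
      rw [Finset.prod_congr rfl fun k _ => h3 k, Finset.prod_const_one, mul_one]
      exact Matrix.single_apply_same 0 _ _
    · intro σ _ hσ
      have h4 : ∃ k, σ k ≠ k := by
        by_contra hcon
        push Not at hcon
        exact hσ (Equiv.ext hcon)
      obtain ⟨k, hk⟩ := h4
      refine Finset.prod_eq_zero (Finset.mem_univ k) ?_
      show (if k = 0 then Matrix.single (0 : Fin (m + 1)) (0 + 1 : Fin (m + 1)) (x i j)
          else Matrix.single k (k + 1) (1 : Ω)) (σ k) (σ (k + 1)) = 0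
      by_cases hk0 : k = 0
      · subst hk0
        rw [if_pos rfl, Matrix.single_apply, if_neg fun h => hk h.1.symm]
      · rw [if_neg hk0, Matrix.single_apply, if_neg fun h => hk h.1.symm]
    · intro h
      exact absurd (Finset.mem_univ _) h
  rw [h2]
  exact hij

end Pool.Agent.Helper96.BJ7
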