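import Pool.Agent.Helper96.BJ7.F1
import Pool.Agent.Helper96.BJ7.F2

/-! BJ7 F5b: dsc a * tau(...) ∈ CC G: apply F1a, F1b, F2 (S' (sum of EP) S = (dsc * tau) 1, so the sum itself is (dsc*tau) 1) -/

namespace Pool.Agent.Helper96.BJ7

open Matrix Finset Pool.Agent.Helper41.BJ

variable {m : ℕ}

variable {K : Type*} {Ω : Type*} [Field K] [Field Ω] [Algebra K Ω]

theorem F5b (G : Subalgebra K (MN (m + 1) Ω)) (S S' : MN (m + 1) Ω) (h : S * S' = 1) (a : Fin (m + 1) → Ω) (θ : MN (m + 1) Ω)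
    (hθ : θ ∈ G) (ha : S' * θ * S = Matrix.diagonal a) (y : Fin (m + 1) → MN (m + 1) Ω) (hy : ∀ k, y k ∈ G) :
    dsc a * tau (fun k => S' * y k * S) ∈ CC G := by
  rw [mem_CC]
  set c := dsc a * tau (fun k => S' * y k * S) with hc
  have hM : ∑ k : Fin (m + 1), EP (fmk m) θ (fun i => y (i + k)) ∈ G :=
    Subalgebra.sum_mem _ fun k _ => F1a G (fmk m) θ hθ _ fun i => hy _
  have h1 : S' * (∑ k : Fin (m + 1), EP (fmk m) θ (fun i => y (i + k))) * S = c • (1 : MN (m + 1) Ω) := by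
    rw [Finset.mul_sum, Finset.sum_mul, hc, ← F2 a (fun k => S' * y k * S)]
    apply Finset.sum_congr rfl
    intro k _
    rw [F1b (fmk m) θ _ S S' h, ha]
  have h2 : ∑ k : Fin (m + 1), EP (fmk m) θ (fun i => y (i + k)) = c • (1 : MN (m + 1) Ω) := by
    calc ∑ k : Fin (m + 1), EP (fmk m) θ (fun i => y (i + k))
        = (S * S') * (∑ k : Fin (m + 1), EP (fmk m) θ (fun i => y (i + k))) * (S * S') := by
          rw [h, one_mul, mul_one]
      _ = S * (S' * (∑ k : Fin (m + 1), EP (fmk m) θ (fun i => y (i + k))) * S) * S' := by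
          simp only [mul_assoc]
      _ = c • (1 : MN (m + 1) Ω) := by
          rw [h1, mul_smul_comm, mul_one, smul_mul_assoc, h]
  rw [← h2]
  exact hM

end Pool.Agent.Helper96.BJ7
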