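import Pool.Agent.Helper41.BJ.A3b
import Pool.Agent.Helper96.BJ7.F4
import Pool.Agent.Helper96.BJ7.F5a
import Pool.Agent.Helper96.BJ7.F5b

/-! BJ7 F5: DD G is a form (paper (9)): A3b, F4 with the functionals x ↦ dsc a * tau (k ↦ S' * (if k = 0 then u*x*v else y k) * S), F5a, F5b; for d ∈ DD G, c d ∈ G, λ(d) = λ(c d)/c ∈ FF G -/

namespace Pool.Agent.Helper96.BJ7

open Matrix Finset Pool.Agent.Helper41.BJ

variable {m : ℕ}

variable {K : Type*} {Ω : Type*} [Field K] [Field Ω] [Algebra K Ω]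

lemma F5_tau_expand (S S' u v : MN (m + 1) Ω) (y : Fin (m + 1) → MN (m + 1) Ω) (x : MN (m + 1) Ω) :
    tau (fun k => S' * (if k = 0 then u * x * v else y k) * S) =
      ∑ σ : Equiv.Perm (Fin (m + 1)), (S' * (u * x * v) * S) (σ 0) (σ (0 + 1)) *
        ∏ i : Fin m, (S' * y i.succ * S) (σ i.succ) (σ (i.succ + 1)) := by
  unfold tau
  refine Finset.sum_congr rfl fun σ _ => ?_
  rw [Fin.prod_univ_succ]
  congr 1

/-- the functional attached to `a, S, S', u, v, y` -/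
noncomputable def F5_fun (a : Fin (m + 1) → Ω) (S S' u v : MN (m + 1) Ω) (y : Fin (m + 1) → MN (m + 1) Ω) : MN (m + 1) Ω →ₗ[Ω] Ω where
  toFun x := dsc a * tau (fun k => S' * (if k = 0 then u * x * v else y k) * S)
  map_add' x x' := by
    rw [F5_tau_expand, F5_tau_expand, F5_tau_expand, ← mul_add, ← Finset.sum_add_distrib]
    congr 1
    refine Finset.sum_congr rfl fun σ _ => ?_
    rw [← add_mul]
    congr 1
    rw [← Matrix.add_apply]
    simp only [mul_add, add_mul]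
  map_smul' c x := by
    rw [F5_tau_expand, F5_tau_expand, RingHom.id_apply, smul_eq_mul, ← mul_assoc c,
      mul_comm c (dsc a), mul_assoc (dsc a) c]
    congr 1
    rw [Finset.mul_sum]
    refine Finset.sum_congr rfl fun σ _ => ?_
    have h1 : S' * (u * (c • x) * v) * S = c • (S' * (u * x * v) * S) := by
      simp only [mul_smul_comm, smul_mul_assoc]
    rw [h1, Matrix.smul_apply, smul_eq_mul]
    ring

theorem F5 [IsAlgClosed Ω] (G : Subalgebra K (MN (m + 1) Ω)) (hG : Submodule.span Ω (G : Set (MN (m + 1) Ω)) = ⊤)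
    (θ : MN (m + 1) Ω) (hθ : θ ∈ G) (hd : discM θ ≠ 0) : IsForm (DD G) := by
  obtain ⟨S, S', a, hS, hSa, hinj⟩ := A3b θ hd
  have hdsc : dsc a ≠ 0 := by
    unfold dsc
    exact pow_ne_zero 2 (Matrix.det_vandermonde_ne_zero_iff.mpr hinj)
  have hGD : (G : Set (MN (m + 1) Ω)) ⊆ (DD G : Set (MN (m + 1) Ω)) := by
    intro x hx
    refine (mem_DD G x).mpr ⟨1, one_mem _, one_ne_zero, ?_⟩
    rw [one_smul]; exact hx
  refine F4 (DD G) ?_ {f | ∃ u ∈ G, ∃ v ∈ G, ∃ y : Fin (m + 1) → MN (m + 1) Ω, (∀ k, y k ∈ G) ∧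
    f = F5_fun a S S' u v y} ?_ ?_
  · rw [eq_top_iff, ← hG]
    exact Submodule.span_mono hGD
  · rintro f ⟨u, hu, v, hv, y, hy, rfl⟩ d hdD
    obtain ⟨c, hc, hc0, hcd⟩ := (mem_DD G d).mp hdD
    have h1 : F5_fun a S S' u v y (c • d) ∈ CC G := by
      refine F5b G S S' hS a θ hθ hSa (fun k => if k = 0 then u * (c • d) * v else y k) ?_
      intro k
      split_ifs
      · exact G.mul_mem (G.mul_mem hu hcd) hv
      · exact hy k
    rw [map_smul, smul_eq_mul] at h1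
    refine ⟨⟨F5_fun a S S' u v y d, ?_⟩, rfl⟩
    refine (mem_FF G _).mpr ⟨_, h1, c, hc, hc0, ?_⟩
    field_simp
  · intro x hx
    by_contra hx0
    obtain ⟨u, hu, v, hv, y, hy, hne⟩ := F5a G hG S S' hS x hx0
    have h1 := hx (F5_fun a S S' u v y) ⟨u, hu, v, hv, y, hy, rfl⟩
    exact mul_ne_zero hdsc hne h1

end Pool.Agent.Helper96.BJ7
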