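import Pool.Agent.Helper96.BJ7.Defs2

/-! BJ7 F6: the generic matrices span M_5(Om n K): they are the rows of the generic 25x25 matrix Matrix.mvPolynomialX (Idx n) (Idx n) K whose determinant is nonzero (Matrix.det_mvPolynomialX_ne_zero), also in Om n K (injective algebraMap) -/

namespace Pool.Agent.Helper96.BJ7

open Matrix Finset Pool.Agent.Helper41.BJ

variable (n : ℕ)

variable (K : Type*) [Field K]

theorem F6 : Submodule.span (Om n K) (GG n K : Set (MN n (Om n K))) = ⊤ := by
  have hinj : Function.Injective (algebraMap (RR n K) (Om n K)) := by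
    rw [IsScalarTower.algebraMap_eq (RR n K) (FractionRing (RR n K)) (Om n K)]
    exact (algebraMap (FractionRing (RR n K)) (Om n K)).injective.comp
      (IsFractionRing.injective (RR n K) (FractionRing (RR n K)))
  have hdet : ((Matrix.mvPolynomialX (Idx n) (Idx n) K).map (algebraMap (RR n K) (Om n K))).det ≠ 0 := by
    intro h0
    have h1 : (algebraMap (RR n K) (Om n K)) (Matrix.mvPolynomialX (Idx n) (Idx n) K).det = 0 := by
      rw [RingHom.map_det]
      exact h0
    exact Matrix.det_mvPolynomialX_ne_zero (Idx n) K (hinj (by rw [h1, map_zero]))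
  have h := Matrix.linearIndependent_rows_of_det_ne_zero hdet
  let e : ((Idx n) → Om n K) →ₗ[Om n K] MN n (Om n K) :=
    { toFun := fun f => Matrix.of fun a b => f (a, b)
      map_add' := fun f g => rfl
      map_smul' := fun c f => rfl }
  have he : LinearMap.ker e = ⊥ := by
    rw [LinearMap.ker_eq_bot]
    intro f g hfg
    funext ⟨a, b⟩
    exact congrFun (congrFun hfg a) b
  have hli : LinearIndependent (Om n K) (gen n K) := by
    have h2 := h.map' e he
    have h3 : (e ∘ fun i => ((Matrix.mvPolynomialX (Idx n) (Idx n) K).map (algebraMap (RR n K) (Om n K))) i) =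
        gen n K := by
      funext i
      ext a b
      rfl
    exact h3 ▸ h2
  have hsp : Submodule.span (Om n K) (Set.range (gen n K)) = ⊤ := by
    apply hli.span_eq_top_of_card_eq_finrank'
    rw [Module.finrank_matrix]
    simp
  rw [eq_top_iff, ← hsp]
  exact Submodule.span_mono (Algebra.subset_adjoin)

end Pool.Agent.Helper96.BJ7
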