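import Pool.Agent.Helper41.BJ.A3a
import Pool.Agent.Helper96.BJ7.Defs2

/-! BJ7 F7: discM (gen 0) ≠ 0: discM commutes with ring homs (map), specialise genR (0,0) to a diagonal matrix with distinct entries of K (infinite), use A3a; injectivity of RR (m + 1) K → Om K -/

namespace Pool.Agent.Helper96.BJ7

open Matrix Finset Pool.Agent.Helper41.BJ

variable (m : ℕ)

variable (K : Type*) [Field K]

private theorem f7_discM_map {R S : Type*} [CommRing R] [CommRing S] (f : R →+* S) (M : MN (m + 1) R) :
    discM (M.map f) = f (discM M) := by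
  unfold discM
  rw [RingHom.map_det]
  congr 1
  ext i j
  rw [RingHom.mapMatrix_apply, Matrix.map_apply, Matrix.of_apply, Matrix.of_apply]
  have h1 : (M.map f) ^ ((i : ℕ) + (j : ℕ)) = (M ^ ((i : ℕ) + (j : ℕ))).map f := by
    have h2 := map_pow f.mapMatrix M ((i : ℕ) + (j : ℕ))
    rw [RingHom.mapMatrix_apply, RingHom.mapMatrix_apply] at h2
    exact h2.symm
  rw [h1]
  unfold Matrix.trace
  rw [map_sum]
  rfl

private theorem f7_inj : Function.Injective (algebraMap (RR (m + 1) K) (Om (m + 1) K)) := by
  rw [IsScalarTower.algebraMap_eq (RR (m + 1) K) (FractionRing (RR (m + 1) K)) (Om (m + 1) K)]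
  exact (algebraMap (FractionRing (RR (m + 1) K)) (Om (m + 1) K)).injective.comp
    (IsFractionRing.injective (RR (m + 1) K) (FractionRing (RR (m + 1) K)))

theorem F7 [Infinite K] : discM (gen (m + 1) K (0, 0)) ≠ 0 := by
  unfold gen
  rw [f7_discM_map]
  intro h
  have h0 : discM (genR (m + 1) K (0, 0)) = 0 := by
    apply f7_inj m K
    rw [h, map_zero]
  let a : Fin (m + 1) → K := fun i => Infinite.natEmbedding K (i : ℕ)
  have ha : Function.Injective a := by
    intro i j hij
    exact Fin.ext ((Infinite.natEmbedding K).injective hij)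
  let φ : RR (m + 1) K →+* K := MvPolynomial.eval
    (fun x : Idx (m + 1) × Idx (m + 1) => if x.2.1 = x.2.2 then a x.2.1 else 0)
  have h1 : (genR (m + 1) K (0, 0)).map φ = Matrix.diagonal a := by
    ext i j
    rw [Matrix.map_apply]
    change φ (MvPolynomial.X ((0, 0), (i, j))) = _
    change MvPolynomial.eval _ (MvPolynomial.X _) = _
    rw [MvPolynomial.eval_X]
    change (if i = j then a i else 0) = _
    by_cases hij : i = j
    · subst hij
      rw [if_pos rfl, Matrix.diagonal_apply_eq]
    · rw [if_neg hij, Matrix.diagonal_apply_ne _ hij]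
  have h2 := f7_discM_map m φ (genR (m + 1) K (0, 0))
  rw [h1, h0, map_zero] at h2
  exact A3a a ha h2

end Pool.Agent.Helper96.BJ7
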