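import Pool.Agent.Helper96.BJ7.Defs2

/-! BJ7 F8: specialisation of generic matrices. F8a: elements of GG (m + 1) K are values of free polynomials at gen. F8b: specialisation at a (ring hom eval, FreeAlgebra.lift and AlgHom uniqueness). F8c: scalar generic value ⇔ scalar valued (MvPolynomial.funext, K infinite; c lies in the polynomial ring because it is an entry). F8d: nonzero. -/

namespace Pool.Agent.Helper96.BJ7

open Matrix Finset Pool.Agent.Helper41.BJ

variable (m : ℕ)

variable (K : Type*) [Field K]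

theorem F8a (p : MN (m + 1) (Om (m + 1) K)) (hp : p ∈ GG (m + 1) K) :
    ∃ P : FreeAlgebra K (Idx (m + 1)), FreeAlgebra.lift K (gen (m + 1) K) P = p := by
  unfold GG at hp
  rw [Algebra.adjoin_range_eq_range_freeAlgebra_lift] at hp
  exact hp

theorem F8b (P : FreeAlgebra K (Idx (m + 1))) (a : Idx (m + 1) → MN (m + 1) K) :
    (FreeAlgebra.lift K (genR (m + 1) K) P).map (MvPolynomial.eval (fun q : Idx (m + 1) × Idx (m + 1) => a q.1 q.2.1 q.2.2)) =
      FreeAlgebra.lift K a P := by
  have h : ((MvPolynomial.aeval (fun q : Idx (m + 1) × Idx (m + 1) => a q.1 q.2.1 q.2.2) :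
      RR (m + 1) K →ₐ[K] K).mapMatrix.comp (FreeAlgebra.lift K (genR (m + 1) K))) = FreeAlgebra.lift K a := by
    apply FreeAlgebra.hom_ext
    funext i
    ext x y
    simp only [Function.comp_apply, AlgHom.comp_apply, AlgHom.coe_comp, FreeAlgebra.lift_ι_apply,
      AlgHom.mapMatrix_apply, Matrix.map_apply, genR, Matrix.of_apply, MvPolynomial.aeval_X]
  have h2 := congrArg (fun f : FreeAlgebra K (Idx (m + 1)) →ₐ[K] MN (m + 1) K => f P) h
  simp only [AlgHom.comp_apply, AlgHom.mapMatrix_apply] at h2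
  rw [← h2]
  ext x y
  simp only [Matrix.map_apply]
  rfl

theorem F8b' (P : FreeAlgebra K (Idx (m + 1))) :
    (FreeAlgebra.lift K (genR (m + 1) K) P).map (algebraMap (RR (m + 1) K) (Om (m + 1) K)) = FreeAlgebra.lift K (gen (m + 1) K) P := by
  have h : ((IsScalarTower.toAlgHom K (RR (m + 1) K) (Om (m + 1) K)).mapMatrix.comp
      (FreeAlgebra.lift K (genR (m + 1) K))) = FreeAlgebra.lift K (gen (m + 1) K) := by
    apply FreeAlgebra.hom_ext
    funext i
    ext x y
    simp only [Function.comp_apply, AlgHom.comp_apply, AlgHom.coe_comp, FreeAlgebra.lift_ι_apply,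
      AlgHom.mapMatrix_apply, Matrix.map_apply, gen, IsScalarTower.coe_toAlgHom']
  have h2 := congrArg (fun f : FreeAlgebra K (Idx (m + 1)) →ₐ[K] MN (m + 1) (Om (m + 1) K) => f P) h
  simp only [AlgHom.comp_apply, AlgHom.mapMatrix_apply] at h2
  rw [← h2]
  ext x y
  simp only [Matrix.map_apply, IsScalarTower.coe_toAlgHom']

private theorem f8_inj : Function.Injective (algebraMap (RR (m + 1) K) (Om (m + 1) K)) := by
  rw [IsScalarTower.algebraMap_eq (RR (m + 1) K) (FractionRing (RR (m + 1) K)) (Om (m + 1) K)]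
  exact (algebraMap (FractionRing (RR (m + 1) K)) (Om (m + 1) K)).injective.comp
    (IsFractionRing.injective (RR (m + 1) K) (FractionRing (RR (m + 1) K)))

/-- evaluation of an entry at an arbitrary point -/
private theorem f8_entry (P : FreeAlgebra K (Idx (m + 1))) (q : Idx (m + 1) × Idx (m + 1) → K) (i j : Fin (m + 1)) :
    MvPolynomial.eval q ((FreeAlgebra.lift K (genR (m + 1) K) P) i j) =
      (FreeAlgebra.lift K (fun k : Idx (m + 1) => (Matrix.of fun x y => q (k, (x, y)) : MN (m + 1) K)) P) i j := by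
  rw [← F8b m K P (fun k : Idx (m + 1) => (Matrix.of fun x y => q (k, (x, y)) : MN (m + 1) K))]
  rfl

theorem F8c [Infinite K] (P : FreeAlgebra K (Idx (m + 1))) :
    (∃ c : Om (m + 1) K, FreeAlgebra.lift K (gen (m + 1) K) P = c • (1 : MN (m + 1) (Om (m + 1) K))) ↔ ScalarValued (m + 1) P := by
  constructor
  · rintro ⟨c, hc⟩ a
    rw [← F8b' m K P] at hc
    have hoff : ∀ i j, i ≠ j → (FreeAlgebra.lift K (genR (m + 1) K) P) i j = 0 := by
      intro i j hij
      apply f8_inj m K
      have h1 := congrFun (congrFun hc i) j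
      rw [Matrix.map_apply, Matrix.smul_apply, Matrix.one_apply_ne hij, smul_zero] at h1
      rw [h1, map_zero]
    have hdiag : ∀ i, (FreeAlgebra.lift K (genR (m + 1) K) P) i i = (FreeAlgebra.lift K (genR (m + 1) K) P) 0 0 := by
      intro i
      apply f8_inj m K
      have h1 := congrFun (congrFun hc i) i
      have h2 := congrFun (congrFun hc 0) 0
      rw [Matrix.map_apply, Matrix.smul_apply, Matrix.one_apply_eq] at h1 h2
      rw [h1, h2]
    refine ⟨MvPolynomial.eval (fun q : Idx (m + 1) × Idx (m + 1) => a q.1 q.2.1 q.2.2)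
      ((FreeAlgebra.lift K (genR (m + 1) K) P) 0 0), ?_⟩
    rw [← F8b m K P a]
    ext i j
    rw [Matrix.map_apply, Matrix.smul_apply]
    by_cases hij : i = j
    · subst hij
      rw [hdiag i, Matrix.one_apply_eq, smul_eq_mul, mul_one]
    · rw [hoff i j hij, Matrix.one_apply_ne hij, smul_zero, map_zero]
  · intro hS
    refine ⟨algebraMap (RR (m + 1) K) (Om (m + 1) K) ((FreeAlgebra.lift K (genR (m + 1) K) P) 0 0), ?_⟩
    rw [← F8b' m K P]
    ext i j
    rw [Matrix.map_apply, Matrix.smul_apply]
    by_cases hij : i = j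
    · subst hij
      rw [Matrix.one_apply_eq, smul_eq_mul, mul_one]
      have h1 : (FreeAlgebra.lift K (genR (m + 1) K) P) i i = (FreeAlgebra.lift K (genR (m + 1) K) P) 0 0 := by
        apply MvPolynomial.funext
        intro q
        rw [f8_entry m K P q i i, f8_entry m K P q 0 0]
        obtain ⟨c, hc⟩ := hS (fun k : Idx (m + 1) => (Matrix.of fun x y => q (k, (x, y)) : MN (m + 1) K))
        rw [hc, Matrix.smul_apply, Matrix.smul_apply, Matrix.one_apply_eq, Matrix.one_apply_eq]
      rw [h1]
    · have h1 : (FreeAlgebra.lift K (genR (m + 1) K) P) i j = 0 := by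
        apply MvPolynomial.funext
        intro q
        rw [f8_entry m K P q i j]
        obtain ⟨c, hc⟩ := hS (fun k : Idx (m + 1) => (Matrix.of fun x y => q (k, (x, y)) : MN (m + 1) K))
        rw [hc, Matrix.smul_apply, Matrix.one_apply_ne hij, smul_zero, map_zero]
      rw [h1, map_zero, Matrix.one_apply_ne hij, smul_zero]

theorem F8d [Infinite K] (P : FreeAlgebra K (Idx (m + 1))) (h : FreeAlgebra.lift K (gen (m + 1) K) P ≠ 0) :
    ∃ a : Idx (m + 1) → MN (m + 1) K, FreeAlgebra.lift K a P ≠ 0 := by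
  by_contra hcon
  push Not at hcon
  apply h
  rw [← F8b' m K P]
  ext i j
  rw [Matrix.map_apply]
  have h1 : (FreeAlgebra.lift K (genR (m + 1) K) P) i j = 0 := by
    apply MvPolynomial.funext
    intro q
    rw [f8_entry m K P q i j, hcon, Matrix.zero_apply, map_zero]
  rw [h1, map_zero, Matrix.zero_apply]

end Pool.Agent.Helper96.BJ7
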