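import Pool.Agent.Helper41.BJ.Bas
import Pool.Agent.Helper41.BJ.C1
import Pool.Agent.Helper41.BJ.H5
import Pool.Agent.Helper41.BJ.A3b
import Pool.Agent.Helper41.BJ.A3c
import Pool.Agent.Helper41.BJ.A4

/-!
BJ7 T1: division algebras of odd degree `n` contain an element outside the centre with
`e_1 = e_2 = e_{n-1} = 0`, in every characteristic.
-/

namespace Pool.Agent.Helper96.BJ7

open Matrix Finset Pool.Agent.Helper41.BJ

section coeffs

variable {n : ℕ} {Ω : Type*}

theorem coeff_two' [CommRing Ω] (M : MN n Ω) (h0 : ∀ i, M i i = 0) (hn : 2 ≤ n) :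
    M.charpoly.coeff (n - 2) = - S2 (fun i j => M i j * M j i) := by
  have h := Matrix.charpoly_coeff_eq_sum_minors M 2 (by simpa using hn)
  rw [Fintype.card_fin, sum_powersetCard_two
    (fun s => (M.submatrix (Subtype.val : s → Fin n) (Subtype.val : s → Fin n)).det)] at h
  have e : S2 (fun i j => (M.submatrix (Subtype.val : ({i, j} : Finset (Fin n)) → Fin n)
      (Subtype.val : ({i, j} : Finset (Fin n)) → Fin n)).det) = - S2 (fun i j => M i j * M j i) := by
    unfold S2
    simp only [← Finset.sum_neg_distrib]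
    refine Finset.sum_congr rfl fun i _ => Finset.sum_congr rfl fun j _ => ?_
    split_ifs with hij
    · refine (minor_two M i j hij.ne).trans ?_
      rw [h0, zero_mul, zero_sub]
    · rw [neg_zero]
  rw [h, e]
  ring

theorem S2_XX [Field Ω] (h : MN n Ω) (hs : ∀ i j, h i j * h j i = 1) (r s : Fin n → Ω)
    (hr : ∀ i, r i ≠ 0) (sr : ∑ i, r i = 0) (ss : ∑ i, s i = 0) :
    S2 (fun i j => XX h r s i j * XX h r s j i) = 0 := by
  have e : S2 (fun i j => XX h r s i j * XX h r s j i) =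
      - S2 (fun i j => (r i * (s j ^ 2 * (r j)⁻¹) - s i * s j) +
        (r j * (s i ^ 2 * (r i)⁻¹) - s j * s i)) := by
    unfold S2
    simp only [← Finset.sum_neg_distrib]
    refine Finset.sum_congr rfl fun i _ => Finset.sum_congr rfl fun j _ => ?_
    split_ifs with hij
    · have hi := hr i
      have hj := hr j
      have e1 : XX h r s i j * XX h r s j i = (r i)⁻¹ * (r i * s j - r j * s i) *
          ((r j)⁻¹ * (r j * s i - r i * s j)) * (h i j * h j i) := by
        simp only [XX, Matrix.of_apply]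
        ring
      rw [e1, hs, mul_one]
      field_simp
      ring
    · rw [neg_zero]
  rw [e, ← sum_pairs (fun i j => r i * (s j ^ 2 * (r j)⁻¹) - s i * s j)
    (fun i => by have := hr i; field_simp; ring)]
  simp only [Finset.sum_sub_distrib, ← Finset.mul_sum, ← Finset.sum_mul, sr, ss]
  ring

/-- the coefficient of `X` for an invertible matrix whose inverse has trace zero -/
theorem coeff_one_of_trace_inv [Field Ω] [NeZero n] (A B : MN n Ω) (hAB : A * B = 1)
    (htr : Matrix.trace B = 0) : A.charpoly.coeff 1 = 0 := by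
  have hu : IsUnit A := IsUnit.of_mul_eq_one B hAB
  have hB : A⁻¹ = B := Matrix.inv_eq_right_inv hAB
  have h := Matrix.charpoly_inv B (IsUnit.of_mul_eq_one A (mul_eq_one_comm.mp hAB))
  have hBinv : B⁻¹ = A := Matrix.inv_eq_right_inv (mul_eq_one_comm.mp hAB)
  rw [hBinv] at h
  rw [h]
  have h1 : (((-1) ^ Fintype.card (Fin n) * Polynomial.C (Ring.inverse B.det) *
      B.charpolyRev : Polynomial Ω)).coeff 1 = ((-1) ^ Fintype.card (Fin n) * Ring.inverse B.det) *
        B.charpolyRev.coeff 1 := by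
    have e : ((-1) ^ Fintype.card (Fin n) * Polynomial.C (Ring.inverse B.det) : Polynomial Ω) =
        Polynomial.C ((-1) ^ Fintype.card (Fin n) * Ring.inverse B.det) := by
      simp
    rw [e, Polynomial.coeff_C_mul]
  rw [h1, Matrix.coeff_charpolyRev_eq_neg_trace, htr, neg_zero, mul_zero]

end coeffs

section main

variable {F : Type*} {Ω : Type*} [Field F] [Field Ω] [Algebra F Ω]

theorem choice (α β : F) :
    ∃ c c1 d d1 : F, c * α + c1 * β = 0 ∧ c * d1 - c1 * d ≠ 0 := by
  by_cases hα : α = 0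
  · exact ⟨1, 0, 0, 1, by simp [hα], by simp⟩
  · exact ⟨β, -α, 1, 0, by ring, by simpa using hα⟩

/-- entries of the nonzero diagonal elements of a division form, and their inverses -/
theorem diag_inv {n : ℕ} (D : Subalgebra F (MN n Ω)) (hdiv : IsDiv D) (α : Fin n → Ω)
    (hα : Matrix.diagonal α ∈ D) (h0 : α ≠ 0) :
    (∀ i, α i ≠ 0) ∧ Matrix.diagonal (fun i => (α i)⁻¹) ∈ D := by
  have hne : (Matrix.diagonal α : MN n Ω) ≠ 0 := by
    intro h
    exact h0 (Matrix.diagonal_injective (h.trans (Matrix.diagonal_zero).symm))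
  obtain ⟨N, hN, hNN⟩ := hdiv _ hα hne
  have hi : ∀ i, α i ≠ 0 := by
    intro i hi
    have f1 := congrFun (congrFun hNN i) i
    rw [Matrix.diagonal_mul, hi, zero_mul, Matrix.one_apply_eq] at f1
    exact zero_ne_one f1
  refine ⟨hi, ?_⟩
  have e : N = Matrix.diagonal (fun i => (α i)⁻¹) := by
    ext i j
    have f1 := congrFun (congrFun hNN i) j
    rw [Matrix.diagonal_mul] at f1
    have f2 : N i j = (α i)⁻¹ * (1 : MN n Ω) i j := by
      rw [← f1, ← mul_assoc, inv_mul_cancel₀ (hi i), one_mul]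
    rw [f2]
    by_cases hij : i = j
    · subst hij
      rw [Matrix.one_apply_eq, mul_one, Matrix.diagonal_apply_eq]
    · rw [Matrix.one_apply_ne hij, mul_zero, Matrix.diagonal_apply_ne _ hij]
  rw [← e]
  exact hN

theorem odd_div_diag [Infinite F] {m r : ℕ} (hm : m + 1 = 2 * r + 1) (hm2 : 2 ≤ m)
    (D : Subalgebra F (MN (m + 1) Ω)) (hD : IsForm D) (hdiv : IsDiv D) (a : Fin (m + 1) → Ω)
    (ha : Function.Injective a) (hθ : Matrix.diagonal a ∈ D) :
    ∃ x ∈ D, (∀ c : Ω, x ≠ c • (1 : MN (m + 1) Ω)) ∧ x.charpoly.coeff m = 0 ∧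
      x.charpoly.coeff (m - 1) = 0 ∧ x.charpoly.coeff 1 = 0 := by
  obtain ⟨h, hhD, hdiag, hinv⟩ := H5 hm D hD a ha hθ
  obtain ⟨b, w0, hbD, hb0, hw0D, -, hbi, hspan⟩ := basis_E (m := m) D hD a ha hθ
  let i0 : Fin m := ⟨0, by omega⟩
  let i1 : Fin m := ⟨1, by omega⟩
  have h01 : i0 ≠ i1 := by
    intro h
    have := congrArg Fin.val h
    simp [i0, i1] at this
  set u := b i0 with hu
  set v := b i1 with hv
  have huD : Matrix.diagonal u ∈ D := hbD i0
  have hvD : Matrix.diagonal v ∈ D := hbD i1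
  have hli : ∀ c c1 : Ω, c • u + c1 • v = 0 → c = 0 ∧ c1 = 0 := by
    intro c c1 hcc
    have e := hbi (Pi.single i0 c + Pi.single i1 c1) (by
      have e1 : ∑ j, (Pi.single i0 c + Pi.single i1 c1 : Fin m → Ω) j • b j =
          ∑ j, ((Pi.single i0 c : Fin m → Ω) j • b j + (Pi.single i1 c1 : Fin m → Ω) j • b j) :=
        Finset.sum_congr rfl fun j _ => by rw [Pi.add_apply, add_smul]
      rw [e1, Finset.sum_add_distrib, Finset.sum_eq_single i0, Finset.sum_eq_single i1]
      · rw [Pi.single_eq_same, Pi.single_eq_same]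
        exact hcc
      · intro j _ hj
        rw [Pi.single_eq_of_ne hj, zero_smul]
      · intro h; exact absurd (Finset.mem_univ _) h
      · intro j _ hj
        rw [Pi.single_eq_of_ne hj, zero_smul]
      · intro h; exact absurd (Finset.mem_univ _) h)
    have f0 := congrFun e i0
    have f1 := congrFun e i1
    rw [Pi.add_apply, Pi.single_eq_same, Pi.single_eq_of_ne h01, add_zero] at f0
    rw [Pi.add_apply, Pi.single_eq_same, Pi.single_eq_of_ne h01.symm, zero_add] at f1
    exact ⟨f0, f1⟩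
  have hh0 : ∀ i j, h i j ≠ 0 := fun i j h0 => by
    have := hinv i j
    rw [h0, zero_mul] at this
    exact zero_ne_one this
  set k : MN (m + 1) Ω := Matrix.diagonal v * h * Matrix.diagonal u -
    Matrix.diagonal u * h * Matrix.diagonal v with hk
  have hkD : k ∈ D := D.sub_mem (D.mul_mem (D.mul_mem hvD hhD) huD)
    (D.mul_mem (D.mul_mem huD hhD) hvD)
  have hkij : ∀ i j, k i j = (v i * u j - u i * v j) * h i j := by
    intro i j
    rw [hk, Matrix.sub_apply, Matrix.mul_diagonal, Matrix.diagonal_mul, Matrix.mul_diagonal,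
      Matrix.diagonal_mul]
    ring
  have hu0 : u ≠ 0 := by
    intro h0
    have := (hli 1 0 (by rw [h0]; simp)).1
    exact one_ne_zero this
  obtain ⟨hui, -⟩ := diag_inv D hdiv u huD hu0
  have hk0 : k ≠ 0 := by
    intro hk0
    have hcross : ∀ i, v 0 * u i = u 0 * v i := by
      intro i
      have h1 := hkij 0 i
      rw [hk0, Matrix.zero_apply] at h1
      have h2 := (mul_eq_zero.mp h1.symm).resolve_right (hh0 0 i)
      exact sub_eq_zero.mp h2
    have h3 := (hli (v 0) (-u 0) (by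
      funext i
      simp only [Pi.add_apply, Pi.smul_apply, smul_eq_mul, Pi.zero_apply]
      rw [hcross i]
      ring)).2
    exact hui 0 (neg_eq_zero.mp h3)
  obtain ⟨k', hk'D, hkk'⟩ := hdiv k hkD hk0
  obtain ⟨α, hα⟩ := A7 D hD a ha hθ (k' * Matrix.diagonal u) (D.mul_mem hk'D huD)
  obtain ⟨β, hβ⟩ := A7 D hD a ha hθ (k' * Matrix.diagonal v) (D.mul_mem hk'D hvD)
  obtain ⟨c, c1, d, d1, hcc, hδ⟩ := choice α β
  set ρ : Fin (m + 1) → Ω := c • u + c1 • v with hρ
  set s : Fin (m + 1) → Ω := d • u + d1 • v with hs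
  set δ : Ω := algebraMap F Ω (c * d1 - c1 * d) with hδdef
  have hδ0 : δ ≠ 0 := by
    rw [hδdef]
    exact (map_ne_zero_iff _ (algebraMap F Ω).injective).mpr hδ
  have hri : ∀ i, ρ i = algebraMap F Ω c * u i + algebraMap F Ω c1 * v i := by
    intro i; simp [hρ, Algebra.smul_def]
  have hsi : ∀ i, s i = algebraMap F Ω d * u i + algebraMap F Ω d1 * v i := by
    intro i; simp [hs, Algebra.smul_def]
  have hRe : Matrix.diagonal ρ = c • Matrix.diagonal u + c1 • Matrix.diagonal v := by
    rw [hρ, ← Matrix.diagonal_smul, ← Matrix.diagonal_smul, Matrix.diagonal_add]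
    rfl
  have hRD : Matrix.diagonal ρ ∈ D := by
    rw [hRe]
    exact D.add_mem (D.smul_mem huD c) (D.smul_mem hvD c1)
  have hρ0 : ρ ≠ 0 := by
    intro h0
    obtain ⟨e1, e2⟩ := hli (algebraMap F Ω c) (algebraMap F Ω c1) (by
      rw [algebraMap_smul, algebraMap_smul, ← hρ, h0])
    have e1' : c = 0 := (map_eq_zero (algebraMap F Ω)).mp e1
    have e2' : c1 = 0 := (map_eq_zero (algebraMap F Ω)).mp e2
    apply hδ
    rw [e1', e2']; ring
  obtain ⟨hρi, hρinv⟩ := diag_inv D hdiv ρ hRD hρ0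
  set X : MN (m + 1) Ω := XX h ρ s with hX
  have hXeq : X = (-δ) • (Matrix.diagonal (fun i => (ρ i)⁻¹) * k) := by
    ext i j
    rw [hX, Matrix.smul_apply, Matrix.diagonal_mul, hkij i j]
    simp only [XX, Matrix.of_apply, smul_eq_mul]
    have e : ρ i * s j - ρ j * s i = -δ * (v i * u j - u i * v j) := by
      rw [hri i, hri j, hsi i, hsi j, hδdef, map_sub, map_mul, map_mul]
      ring
    rw [e]; ring
  have hXD : X ∈ D := by
    have e : X = (-(c * d1 - c1 * d)) • (Matrix.diagonal (fun i => (ρ i)⁻¹) * k) := by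
      rw [hXeq, hδdef, ← map_neg, algebraMap_smul]
    rw [e]
    exact D.smul_mem (D.mul_mem hρinv hkD) _
  have hRR : Matrix.diagonal (fun i => (ρ i)⁻¹) * Matrix.diagonal ρ = (1 : MN (m + 1) Ω) := by
    rw [Matrix.diagonal_mul_diagonal, ← Matrix.diagonal_one]
    congr 1
    funext i
    exact inv_mul_cancel₀ (hρi i)
  have hδ' : -δ ≠ 0 := neg_ne_zero.mpr hδ0
  have hXinv : X * ((-δ)⁻¹ • (k' * Matrix.diagonal ρ)) = 1 := by
    rw [hXeq, smul_mul_smul_comm, mul_inv_cancel₀ hδ', one_smul]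
    calc Matrix.diagonal (fun i => (ρ i)⁻¹) * k * (k' * Matrix.diagonal ρ)
        = Matrix.diagonal (fun i => (ρ i)⁻¹) * (k * k') * Matrix.diagonal ρ := by
          simp only [mul_assoc]
      _ = 1 := by rw [hkk', mul_one, hRR]
  have htr0 : Matrix.trace (k' * Matrix.diagonal ρ) = 0 := by
    have e : k' * Matrix.diagonal ρ = c • (k' * Matrix.diagonal u) +
        c1 • (k' * Matrix.diagonal v) := by
      rw [hRe, mul_add, mul_smul_comm, mul_smul_comm]
    rw [e, Matrix.trace_add, Matrix.trace_smul, Matrix.trace_smul, hα, hβ,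
      Algebra.smul_def, Algebra.smul_def, ← map_mul, ← map_mul, ← map_add, hcc, map_zero]
  have htr : Matrix.trace ((-δ)⁻¹ • (k' * Matrix.diagonal ρ)) = 0 := by
    rw [Matrix.trace_smul, htr0, smul_zero]
  have hX0 : ∀ i, X i i = 0 := by
    intro i
    simp [hX, XX]
  have hXne : X ≠ 0 := by
    intro h0
    rw [h0, zero_mul] at hXinv
    exact zero_ne_one hXinv
  have hsr : ∑ i, ρ i = 0 := by
    simp only [hri, Finset.sum_add_distrib, ← Finset.mul_sum]
    rw [hu, hv, hb0, hb0, mul_zero, mul_zero, add_zero]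
  have hss : ∑ i, s i = 0 := by
    simp only [hsi, Finset.sum_add_distrib, ← Finset.mul_sum]
    rw [hu, hv, hb0, hb0, mul_zero, mul_zero, add_zero]
  refine ⟨X, hXD, ?_, coeff_one X hX0, ?_, coeff_one_of_trace_inv X _ hXinv htr⟩
  · intro c' hc'
    have h1 := hX0 0
    rw [hc', Matrix.smul_apply, Matrix.one_apply_eq, smul_eq_mul, mul_one] at h1
    apply hXne
    rw [hc', h1, zero_smul]
  · have h1 := coeff_two' X hX0 (by omega)
    rw [show m + 1 - 2 = m - 1 by omega, S2_XX h hinv ρ s hρi hsr hss, neg_zero] at h1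
    exact h1

/-- the characteristic polynomial of a conjugate -/
theorem charpoly_conj {n : ℕ} (S S' x : MN n Ω) (hSS : S * S' = 1) :
    (S * x * S').charpoly = x.charpoly := by
  have hS'S : S' * S = 1 := mul_eq_one_comm.mp hSS
  let U : (MN n Ω)ˣ := ⟨S, S', hSS, hS'S⟩
  have h := Matrix.charpoly_units_conj U x
  have e : ((U : MN n Ω))⁻¹ = S' := Matrix.inv_eq_right_inv hSS
  rw [e] at h
  exact h

theorem odd_div [Infinite F] [IsAlgClosed Ω] {m r : ℕ} (hm : m + 1 = 2 * r + 1) (hm2 : 2 ≤ m)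
    (D : Subalgebra F (MN (m + 1) Ω)) (hD : IsForm D) (hdiv : IsDiv D) :
    ∃ x ∈ D, (∀ c : Ω, x ≠ c • (1 : MN (m + 1) Ω)) ∧ x.charpoly.coeff m = 0 ∧
      x.charpoly.coeff (m - 1) = 0 ∧ x.charpoly.coeff 1 = 0 := by
  obtain ⟨θ, hθ, hdisc⟩ := A3c D hD
  obtain ⟨S, S', a, hSS, hdiag, ha⟩ := A3b θ hdisc
  have hS'S : S' * S = 1 := mul_eq_one_comm.mp hSS
  have hda : Matrix.diagonal a ∈ conjD D S S' hSS := by
    rw [mem_conjD, ← hdiag]
    have : S * (S' * θ * S) * S' = θ := by
      calc S * (S' * θ * S) * S' = (S * S') * θ * (S * S') := by simp only [mul_assoc]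
        _ = θ := by rw [hSS, one_mul, mul_one]
    rw [this]
    exact hθ
  obtain ⟨x, hx, hns, c1, c2, c3⟩ := odd_div_diag hm hm2 (conjD D S S' hSS)
    (A4a D S S' hSS hD) (A4b D S S' hSS hdiv) a ha hda
  rw [mem_conjD] at hx
  refine ⟨S * x * S', hx, ?_, ?_, ?_, ?_⟩
  · intro c' hc'
    apply hns c'
    have : S' * (S * x * S') * S = x := by
      calc S' * (S * x * S') * S = (S' * S) * x * (S' * S) := by simp only [mul_assoc]
        _ = x := by rw [hS'S, one_mul, mul_one]
    rw [← this, hc', mul_smul_comm, mul_one, smul_mul_assoc, hS'S]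
  all_goals
    rw [charpoly_conj S S' x hSS]
    assumption

end main

end Pool.Agent.Helper96.BJ7
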