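import Mathlib
import Pool.Agent.Helper96.BJ7.E1
import Pool.Agent.Helper96.BJ7.F5
import Pool.Agent.Helper96.BJ7.F6
import Pool.Agent.Helper96.BJ7.F7
import Pool.Agent.Helper96.BJ7.F8

/-!
BJ7 Z2: from elements of division forms of `M_{m+1}(Ω)` with prescribed vanishing coefficients of
the characteristic polynomial to noncommutative polynomials over any infinite field `K`.
-/

namespace Pool.Agent.Helper96.BJ7

open Pool.Agent.Helper41.BJ Polynomial

theorem z2_smul_coeff {n : ℕ} {Ω : Type*} [Field Ω] [Infinite Ω] (e : Ω) (he : e ≠ 0)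
    (x : MN n Ω) (j : ℕ) (hx : x.charpoly.coeff j = 0) : (e • x).charpoly.coeff j = 0 := by
  have h1 : (e • x).charpoly.comp (C e * X) = C (e ^ n) * x.charpoly := by
    apply Polynomial.funext
    intro t
    rw [eval_comp, eval_mul, eval_mul, eval_C, eval_C, eval_X, Matrix.eval_charpoly,
      Matrix.eval_charpoly]
    have h2 : Matrix.scalar (Fin n) (e * t) - e • x = e • (Matrix.scalar (Fin n) t - x) := by
      ext i j
      simp only [Matrix.sub_apply, Matrix.smul_apply, Matrix.scalar_apply, Matrix.diagonal_apply,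
        smul_eq_mul]
      split_ifs <;> ring
    rw [h2, Matrix.det_smul, Fintype.card_fin]
  have h3 := congrArg (fun p : Polynomial Ω => p.coeff j) h1
  simp only [comp_C_mul_X_coeff, coeff_C_mul, hx, mul_zero] at h3
  exact (mul_eq_zero.1 h3).resolve_right (pow_ne_zero _ he)

theorem z2_sq_zero {n : ℕ} {Ω : Type*} [Field Ω] (u : MN n Ω) (hu : u * u = 0) :
    u.charpoly = X ^ n := by
  have hn : IsNilpotent u := ⟨2, by rw [pow_two, hu]⟩
  have h := (Matrix.isNilpotent_charpoly_sub_pow_of_isNilpotent hn).eq_zero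
  rw [Fintype.card_fin] at h
  exact sub_eq_zero.1 h

universe u

/-- if every division form of `M_{m+1}(Ω)` contains a nonscalar element for which the coefficients
of the characteristic polynomial with index in `S` vanish (all of them at most `m`), then for every
infinite field `K` there is a noncommutative polynomial which is not scalar valued on
`M_{m+1}(K)` and for all of whose values the coefficients with index in `S` vanish. -/
theorem poly_of_good (m : ℕ) (S : Set ℕ) (hS : ∀ j ∈ S, j ≤ m) (K : Type u) [Field K] [Infinite K]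
    (good : ∀ (F Ω : Type u) [Field F] [Infinite F] [Field Ω] [IsAlgClosed Ω] [Algebra F Ω]
      (D : Subalgebra F (MN (m + 1) Ω)), IsForm D → IsDiv D →
        ∃ x ∈ D, (∀ c : Ω, x ≠ c • (1 : MN (m + 1) Ω)) ∧ ∀ j ∈ S, x.charpoly.coeff j = 0) :
    ∃ P : FreeAlgebra K (Idx (m + 1)), ¬ ScalarValued (m + 1) P ∧
      ∀ (a : Idx (m + 1) → MN (m + 1) K), ∀ j ∈ S,
        (FreeAlgebra.lift K a P).charpoly.coeff j = 0 := by
  have hθ : gen (m + 1) K (0, 0) ∈ GG (m + 1) K := Algebra.subset_adjoin ⟨_, rfl⟩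
  have hform : IsForm (DD (GG (m + 1) K)) :=
    F5 (GG (m + 1) K) (F6 (m + 1) K) _ hθ (F7 m K)
  have hinjK : Function.Injective (algebraMap K (Om (m + 1) K)) :=
    (algebraMap K (Om (m + 1) K)).injective
  have : Infinite (Om (m + 1) K) := Infinite.of_injective _ hinjK
  have : Infinite (FF (GG (m + 1) K)) := by
    refine Infinite.of_injective (fun k : K => (⟨algebraMap K (Om (m + 1) K) k,
      Subfield.subset_closure ((CC (GG (m + 1) K)).algebraMap_mem k)⟩ : FF (GG (m + 1) K))) ?_
    intro a b hab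
    have h := congrArg (fun x : FF (GG (m + 1) K) => (x : Om (m + 1) K)) hab
    exact hinjK h
  have hgood : ∃ x ∈ DD (GG (m + 1) K), (∀ c : Om (m + 1) K, x ≠ c • (1 : MN (m + 1) (Om (m + 1) K))) ∧
      ∀ j ∈ S, x.charpoly.coeff j = 0 := by
    by_cases hdiv : IsDiv (DD (GG (m + 1) K))
    · exact good _ _ _ hform hdiv
    · obtain ⟨u, hu, hu0, huu⟩ := E1 _ hform hdiv
      refine ⟨u, hu, ?_, ?_⟩
      · rintro c rfl
        rw [smul_mul_smul_comm, mul_one] at huu
        have h1 := congrFun (congrFun huu 0) 0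
        rw [Matrix.smul_apply, Matrix.one_apply_eq, smul_eq_mul, mul_one, Matrix.zero_apply] at h1
        rw [mul_self_eq_zero.1 h1, zero_smul] at hu0
        exact hu0 rfl
      · intro j hj
        rw [z2_sq_zero u huu, coeff_X_pow, if_neg]
        have := hS j hj
        omega
  obtain ⟨x, hx, hxns, hxj⟩ := hgood
  obtain ⟨e, he, he0, hex⟩ := (mem_DD _ _).mp hx
  obtain ⟨P, hP⟩ := F8a m K (e • x) hex
  have hinjR : Function.Injective (algebraMap (RR (m + 1) K) (Om (m + 1) K)) := by
    rw [IsScalarTower.algebraMap_eq (RR (m + 1) K) (FractionRing (RR (m + 1) K)) (Om (m + 1) K)]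
    exact (algebraMap (FractionRing (RR (m + 1) K)) (Om (m + 1) K)).injective.comp
      (IsFractionRing.injective (RR (m + 1) K) (FractionRing (RR (m + 1) K)))
  have hR : ∀ j, x.charpoly.coeff j = 0 →
      (FreeAlgebra.lift K (genR (m + 1) K) P).charpoly.coeff j = 0 := by
    intro j hj
    apply hinjR
    rw [map_zero, ← Polynomial.coeff_map, ← Matrix.charpoly_map]
    have h1 : (FreeAlgebra.lift K (genR (m + 1) K) P).map
        (algebraMap (RR (m + 1) K) (Om (m + 1) K)) = e • x := by
      rw [F8b' m K P, hP]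
    rw [h1]
    exact z2_smul_coeff e he0 x j hj
  refine ⟨P, ?_, ?_⟩
  · intro hSV
    obtain ⟨c, hc⟩ := (F8c m K P).mpr hSV
    rw [hP] at hc
    apply hxns (e⁻¹ * c)
    rw [mul_smul, ← hc, smul_smul, inv_mul_cancel₀ he0, one_smul]
  · intro a j hj
    rw [← F8b m K P a, Matrix.charpoly_map, Polynomial.coeff_map, hR j (hxj j hj), map_zero]

/-- renaming the variables of a free polynomial -/
theorem lift_rename {n : ℕ} {K : Type*} [Field K] {ι κ : Type*} (f : ι → κ) (P : FreeAlgebra K ι)
    (a : κ → MN n K) :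
    FreeAlgebra.lift K a (FreeAlgebra.lift K (fun i => FreeAlgebra.ι K (f i)) P) =
      FreeAlgebra.lift K (fun i => a (f i)) P := by
  have h : (FreeAlgebra.lift K a).comp (FreeAlgebra.lift K (fun i => FreeAlgebra.ι K (f i))) =
      FreeAlgebra.lift K (fun i => a (f i)) := by
    apply FreeAlgebra.hom_ext
    funext i
    simp only [Function.comp_apply, AlgHom.comp_apply, AlgHom.coe_comp, FreeAlgebra.lift_ι_apply]
  exact DFunLike.congr_fun h P

/-- the same with variables indexed by `Fin ((m + 1) * (m + 1))` -/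
theorem poly_of_good_fin (m : ℕ) (S : Set ℕ) (hS : ∀ j ∈ S, j ≤ m) (K : Type u) [Field K]
    [Infinite K]
    (good : ∀ (F Ω : Type u) [Field F] [Infinite F] [Field Ω] [IsAlgClosed Ω] [Algebra F Ω]
      (D : Subalgebra F (MN (m + 1) Ω)), IsForm D → IsDiv D →
        ∃ x ∈ D, (∀ c : Ω, x ≠ c • (1 : MN (m + 1) Ω)) ∧ ∀ j ∈ S, x.charpoly.coeff j = 0) :
    ∃ p : FreeAlgebra K (Fin ((m + 1) * (m + 1))),
      (∃ a : Fin ((m + 1) * (m + 1)) → Matrix (Fin (m + 1)) (Fin (m + 1)) K, ∀ c : K,
        FreeAlgebra.lift K a p ≠ Matrix.scalar (Fin (m + 1)) c) ∧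
      ∀ a : Fin ((m + 1) * (m + 1)) → Matrix (Fin (m + 1)) (Fin (m + 1)) K, ∀ j ∈ S,
        (FreeAlgebra.lift K a p).charpoly.coeff j = 0 := by
  obtain ⟨P, hP, hc⟩ := poly_of_good m S hS K good
  let e : Idx (m + 1) ≃ Fin ((m + 1) * (m + 1)) := finProdFinEquiv
  refine ⟨FreeAlgebra.lift K (fun i => FreeAlgebra.ι K (e i)) P, ?_, ?_⟩
  · by_contra hcon
    push Not at hcon
    apply hP
    intro a
    obtain ⟨c, hc'⟩ := hcon (fun j => a (e.symm j))
    refine ⟨c, ?_⟩
    rw [lift_rename] at hc'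
    have h1 : (fun i => a (e.symm (e i))) = a := by
      funext i
      rw [e.symm_apply_apply]
    rw [h1] at hc'
    rw [hc']
    ext i j
    rw [Matrix.scalar_apply, Matrix.diagonal_apply, Matrix.smul_apply, Matrix.one_apply]
    split_ifs <;> simp
  · intro a j hj
    rw [lift_rename]
    exact hc _ j hj

end Pool.Agent.Helper96.BJ7
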