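import Pool.Agent.Helper96.BJ7.Z2
import Pool.Agent.Helper96.BJ7.T1
import Pool.Agent.Helper41.BJ.Z2

/-!
BJ7 Z3: the polynomial statements (degree 7, and all odd degrees), and the statement for division
algebras of odd prime degree.
-/

namespace Pool.Agent.Helper96.BJ7

open Pool.Agent.Helper41.BJ Polynomial

universe u

theorem seven_poly (K : Type u) [Field K] [Infinite K] :
    ∃ p : FreeAlgebra K (Fin 49),
      (∃ a : Fin 49 → Matrix (Fin 7) (Fin 7) K, ∀ c : K,
        FreeAlgebra.lift K a p ≠ Matrix.scalar (Fin 7) c) ∧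
      ∀ a : Fin 49 → Matrix (Fin 7) (Fin 7) K,
        (FreeAlgebra.lift K a p).charpoly.coeff 6 = 0 ∧
        (FreeAlgebra.lift K a p).charpoly.coeff 5 = 0 ∧
        (FreeAlgebra.lift K a p).charpoly.coeff 4 = 0 := by
  obtain ⟨p, h1, h2⟩ := poly_of_good_fin 6 {6, 5, 4} (by
    intro j hj
    simp only [Set.mem_insert_iff, Set.mem_singleton_iff] at hj
    omega) K (by
    intro F Ω _ _ _ _ _ D hD hdiv
    obtain ⟨z, hz, hns, c6, c5, c4⟩ := main_form D hD hdiv
    refine ⟨z, hz, hns, ?_⟩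
    intro j hj
    simp only [Set.mem_insert_iff, Set.mem_singleton_iff] at hj
    rcases hj with rfl | rfl | rfl
    · exact c6
    · exact c5
    · exact c4)
  exact ⟨p, h1, fun a => ⟨h2 a 6 (by simp), h2 a 5 (by simp), h2 a 4 (by simp)⟩⟩

theorem odd_poly (n : ℕ) (hodd : Odd n) (hn : 3 ≤ n) (K : Type u) [Field K] [Infinite K] :
    ∃ p : FreeAlgebra K (Fin (n * n)),
      (∃ a : Fin (n * n) → Matrix (Fin n) (Fin n) K, ∀ c : K,
        FreeAlgebra.lift K a p ≠ Matrix.scalar (Fin n) c) ∧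
      ∀ a : Fin (n * n) → Matrix (Fin n) (Fin n) K,
        (FreeAlgebra.lift K a p).charpoly.coeff (n - 1) = 0 ∧
        (FreeAlgebra.lift K a p).charpoly.coeff (n - 2) = 0 ∧
        (FreeAlgebra.lift K a p).charpoly.coeff 1 = 0 := by
  obtain ⟨m, rfl⟩ : ∃ m, n = m + 1 := ⟨n - 1, by omega⟩
  obtain ⟨r, hr⟩ := hodd
  obtain ⟨p, h1, h2⟩ := poly_of_good_fin m {m, m - 1, 1} (by
    intro j hj
    simp only [Set.mem_insert_iff, Set.mem_singleton_iff] at hj
    omega) K (by
    intro F Ω _ _ _ _ _ D hD hdiv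
    obtain ⟨z, hz, hns, c6, c5, c4⟩ := odd_div hr (by omega) D hD hdiv
    refine ⟨z, hz, hns, ?_⟩
    intro j hj
    simp only [Set.mem_insert_iff, Set.mem_singleton_iff] at hj
    rcases hj with rfl | rfl | rfl
    · exact c6
    · exact c5
    · exact c4)
  refine ⟨p, h1, fun a => ⟨h2 a m (by simp), ?_, h2 a 1 (by simp)⟩⟩
  exact h2 a (m - 1) (by simp)

theorem not_finite' {p : ℕ} (hp : p.Prime) {F D : Type*} [Field F] [Finite F] [DivisionRing D]
    [Algebra F D]
    (hcen : ∀ x : D, (∀ y, x * y = y * x) → ∃ c : F, algebraMap F D c = x)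
    (hdim : Module.finrank F D = p * p) : False := by
  have h4 : 2 * 2 ≤ p * p := Nat.mul_le_mul hp.two_le hp.two_le
  have hfd : FiniteDimensional F D := Module.finite_of_finrank_pos (by omega)
  have hD : Finite D := Module.finite_of_finite F
  have hcomm : ∀ x y : D, x * y = y * x := by
    intro x y
    exact @mul_comm D (littleWedderburn D).toCommRing.toCommMonoid.toCommSemigroup.toCommMagma x y
  have h1 : Module.finrank F D ≤ 1 := by
    apply finrank_le_one (1 : D)
    intro x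
    obtain ⟨c, hc⟩ := hcen x (hcomm x)
    exact ⟨c, by rw [← hc, Algebra.algebraMap_eq_smul_one]⟩
  omega

/-- every division algebra of odd prime degree `p` contains an element with minimal polynomial of
degree `p` in which the coefficients of `X^(p-1)`, `X^(p-2)` and `X` vanish -/
theorem prime_div {p : ℕ} (hp : p.Prime) (hp3 : 3 ≤ p) {F D : Type*} [Field F] [DivisionRing D]
    [Algebra F D]
    (hcen : ∀ x : D, (∀ y, x * y = y * x) → ∃ c : F, algebraMap F D c = x)
    (hdim : Module.finrank F D = p * p) :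
    ∃ x : D, (minpoly F x).natDegree = p ∧ (minpoly F x).coeff (p - 1) = 0 ∧
      (minpoly F x).coeff (p - 2) = 0 ∧ (minpoly F x).coeff 1 = 0 := by
  rcases finite_or_infinite F with hF | hF
  · exact (not_finite' hp hcen hdim).elim
  · obtain ⟨φ, hφ, hform⟩ := exists_form hp (F := F) (D := D)
      (Ω := AlgebraicClosure F) hcen hdim
    have hdiv : IsDiv φ.range := by
      rintro _ ⟨x, rfl⟩ hx
      have hx0 : x ≠ 0 := by
        rintro rfl
        exact hx (map_zero φ)
      refine ⟨φ x⁻¹, ⟨x⁻¹, rfl⟩, ?_⟩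
      change φ x * φ x⁻¹ = 1
      rw [← map_mul, mul_inv_cancel₀ hx0, map_one]
    obtain ⟨m, rfl⟩ : ∃ m, p = m + 1 := ⟨p - 1, by omega⟩
    have hodd : Odd (m + 1) := hp.odd_of_ne_two (by omega)
    obtain ⟨r, hr⟩ := hodd
    obtain ⟨z, ⟨x, hxz⟩, hz, h6, h5, h4⟩ := odd_div hr (by omega) φ.range hform hdiv
    have hxz' : φ x = z := hxz
    subst hxz'
    have hyc : ∀ c : F, ((⟨φ x, ⟨x, rfl⟩⟩ : φ.range) : MN (m + 1) (AlgebraicClosure F)) ≠
        c • (1 : MN (m + 1) (AlgebraicClosure F)) := by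
      intro c hc
      apply hz (algebraMap F _ c)
      rw [algebraMap_smul]
      exact hc
    have hdeg := minpoly_natDegree hp φ.range hform hdiv ⟨φ x, ⟨x, rfl⟩⟩ hyc
    have hch := charpoly_eq hp φ.range hform hdiv ⟨φ x, ⟨x, rfl⟩⟩ hyc
    have hmin : minpoly F (⟨φ x, ⟨x, rfl⟩⟩ : φ.range) = minpoly F x := by
      rw [← minpoly.algHom_eq φ.range.val Subtype.val_injective]
      exact minpoly.algHom_eq φ hφ x
    rw [hmin] at hdeg hch
    change (φ x).charpoly = _ at hch
    have hz : ∀ k, (φ x).charpoly.coeff k = 0 → (minpoly F x).coeff k = 0 := by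
      intro k hk
      rw [hch, Polynomial.coeff_map] at hk
      exact (map_eq_zero (algebraMap F (AlgebraicClosure F))).mp hk
    exact ⟨x, hdeg, hz _ h6, hz _ h5, hz _ h4⟩

end Pool.Agent.Helper96.BJ7
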